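import Pool.Agent.Lib.MP_6bc78b_nt.MS.QZ.Iface

/-! QZ module HNT: the integral of the weight. -/

set_option autoImplicit false

open MeasureTheory Set

namespace Pool.Agent.Lib.MP_6bc78b_nt.MS.QZ.H32

theorem ev_int {f : ℝ → ℝ} (hf : IntegrableOn f (Ioi 0)) :
    Integrable (fun x : ℝ => f |x|) := by
  have h1 : IntegrableOn (fun x => f |x|) (Ioi (0 : ℝ)) := by
    refine hf.congr_fun (fun x hx => ?_) measurableSet_Ioi
    rw [abs_of_pos hx]
  have int_Iic : IntegrableOn (fun x ↦ f |x|) (Iic (0 : ℝ)) := by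
    rw [← Measure.map_neg_eq_self (volume : Measure ℝ)]
    let m : MeasurableEmbedding fun x : ℝ => -x := (Homeomorph.neg ℝ).measurableEmbedding
    rw [m.integrableOn_map_iff]
    simp_rw [Function.comp_def, abs_neg, neg_preimage, neg_Iic, neg_zero]
    exact Iff.mpr integrableOn_Ici_iff_integrableOn_Ioi h1
  have h2 := int_Iic.union h1
  rwa [Iic_union_Ioi, integrableOn_univ] at h2

theorem tail_int {a b : ℝ} (ha : 0 < a) (hb : b < -1) :
    Integrable (fun x : ℝ => (Ioi a).indicator (fun y : ℝ => y ^ b) |x|) ∧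
    ∫ x : ℝ, (Ioi a).indicator (fun y : ℝ => y ^ b) |x| = 2 * (-a ^ (b + 1) / (b + 1)) := by
  have h0 : IntegrableOn ((Ioi a).indicator (fun y : ℝ => y ^ b)) (Ioi 0) := by
    have h : Integrable ((Ioi a).indicator (fun y : ℝ => y ^ b)) :=
      (integrable_indicator_iff measurableSet_Ioi).mpr (integrableOn_Ioi_rpow_of_lt hb ha)
    exact h.integrableOn
  refine ⟨ev_int h0, ?_⟩
  rw [integral_comp_abs (f := (Ioi a).indicator (fun y : ℝ => y ^ b)),
    setIntegral_indicator measurableSet_Ioi]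
  have h1 : Ioi (0 : ℝ) ∩ Ioi a = Ioi a := by
    rw [Ioi_inter_Ioi]
    congr 1
    exact sup_eq_right.mpr ha.le
  rw [h1, integral_Ioi_rpow_of_lt hb ha]

theorem cauchy_int {L : ℝ} (hL : 0 < L) :
    Integrable (fun x : ℝ => L * (1 + (L * x) ^ 2)⁻¹) ∧
    ∫ x : ℝ, L * (1 + (L * x) ^ 2)⁻¹ = Real.pi := by
  have h1 := integrable_inv_one_add_sq.comp_mul_left' hL.ne'
  refine ⟨h1.const_mul L, ?_⟩
  rw [integral_const_mul, Measure.integral_comp_mul_left (fun x : ℝ => (1 + x ^ 2)⁻¹) L,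
    integral_univ_inv_one_add_sq, abs_of_pos (inv_pos.mpr hL), smul_eq_mul, ← mul_assoc,
    mul_inv_cancel₀ hL.ne', one_mul]

theorem two_rpow_le {a : ℝ} (ha : a ≤ 1) : (2 : ℝ) ^ a ≤ 2 := by
  calc (2 : ℝ) ^ a ≤ (2 : ℝ) ^ (1 : ℝ) := Real.rpow_le_rpow_of_exponent_le (by norm_num) ha
    _ = 2 := Real.rpow_one 2

theorem pw {L Y k τ : ℝ} (hL : 3 ≤ L) (hY : 1 ≤ Y) (hYL : Y ≤ L) (hk : 0 < k) (hk1 : k ≤ 1) :
    hh Y (1 - k) τ / (L * ((1 / L) ^ 2 + τ ^ 2)) ≤
      4 * (L * (1 + (L * τ) ^ 2)⁻¹) +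
      4 * Y ^ (1 - k) / L * (Ioi (1 / Y)).indicator (fun y : ℝ => y ^ (-1 - k)) |τ| +
      4 * (Ioi (1 : ℝ)).indicator (fun y : ℝ => y ^ (-(7 / 4) : ℝ)) |τ| := by
  have hL0 : 0 < L := by linarith
  have hY0 : 0 < Y := by linarith
  have hα0 : 0 ≤ 1 - k := by linarith
  have hα1 : 1 - k ≤ 1 := by linarith
  set x := |τ| with hx
  have hx0 : 0 ≤ x := abs_nonneg τ
  have hxx : τ ^ 2 = x ^ 2 := (sq_abs τ).symm
  have hYa : 0 < Y ^ (1 - k) := Real.rpow_pos_of_pos hY0 _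
  have hg1 : 0 ≤ 4 * (L * (1 + (L * τ) ^ 2)⁻¹) := by positivity
  have hg2 : 0 ≤ 4 * Y ^ (1 - k) / L * (Ioi (1 / Y)).indicator (fun y : ℝ => y ^ (-1 - k)) x := by
    refine mul_nonneg (by positivity) ?_
    exact indicator_nonneg (fun y hy => Real.rpow_nonneg
      (le_trans (by positivity) (le_of_lt hy)) _) x
  have hg3 : 0 ≤ 4 * (Ioi (1 : ℝ)).indicator (fun y : ℝ => y ^ (-(7 / 4) : ℝ)) x := by
    refine mul_nonneg (by positivity) ?_
    exact indicator_nonneg (fun y hy => Real.rpow_nonneg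
      (le_trans zero_le_one (le_of_lt hy)) _) x
  have hden : 0 < L * ((1 / L) ^ 2 + τ ^ 2) := by positivity
  have hYinv : 1 / Y ≤ 1 := by rw [div_le_one hY0]; exact hY
  rcases le_or_gt x (1 / Y) with hA | hA
  · have hxY : x * Y ≤ 1 := by
      rw [le_div_iff₀ hY0] at hA
      exact hA
    have hmin : min x 1 = x := min_eq_left (hA.trans hYinv)
    have h1 : hh Y (1 - k) τ ≤ 4 := by
      unfold hh
      rw [← hx, hmin]
      have e1 : (1 + x * Y) ^ (1 - k) ≤ 2 :=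
        (Real.rpow_le_rpow (by positivity) (by linarith) hα0).trans (two_rpow_le hα1)
      have e2 : (1 + x) ^ (1 / 4 : ℝ) ≤ 2 :=
        (Real.rpow_le_rpow (by positivity) (by linarith [hA.trans hYinv] : 1 + x ≤ 2)
          (by norm_num)).trans (two_rpow_le (by norm_num))
      have e3 : 0 ≤ (1 + x) ^ (1 / 4 : ℝ) := Real.rpow_nonneg (by positivity) _
      calc (1 + x * Y) ^ (1 - k) * (1 + x) ^ (1 / 4 : ℝ) ≤ 2 * 2 :=
            mul_le_mul e1 e2 e3 (by norm_num)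
        _ = 4 := by norm_num
    have h2 : hh Y (1 - k) τ / (L * ((1 / L) ^ 2 + τ ^ 2)) ≤ 4 * (L * (1 + (L * τ) ^ 2)⁻¹) := by
      have h3 : 4 * (L * (1 + (L * τ) ^ 2)⁻¹) = 4 / (L * ((1 / L) ^ 2 + τ ^ 2)) := by
        have : (1 + (L * τ) ^ 2) ≠ 0 := by positivity
        field_simp
      rw [h3]
      gcongr
    linarith
  · have hx1 : 0 < x := lt_trans (by positivity) hA
    have hxY : 1 < x * Y := by
      rw [div_lt_iff₀ hY0] at hA
      exact hA
    have hden2 : L * x ^ 2 ≤ L * ((1 / L) ^ 2 + τ ^ 2) := by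
      rw [hxx]
      have : 0 ≤ (1 / L) ^ 2 := by positivity
      nlinarith
    rcases le_or_gt x 1 with hB | hB
    · have hmin : min x 1 = x := min_eq_left hB
      have h1 : hh Y (1 - k) τ ≤ 4 * (x ^ (1 - k) * Y ^ (1 - k)) := by
        unfold hh
        rw [← hx, hmin]
        have e1 : (1 + x * Y) ^ (1 - k) ≤ 2 * (x ^ (1 - k) * Y ^ (1 - k)) := by
          calc (1 + x * Y) ^ (1 - k) ≤ (2 * (x * Y)) ^ (1 - k) :=
                Real.rpow_le_rpow (by positivity) (by linarith) hα0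
            _ = 2 ^ (1 - k) * (x ^ (1 - k) * Y ^ (1 - k)) := by
                rw [Real.mul_rpow (by norm_num) (by positivity), Real.mul_rpow hx0 hY0.le]
            _ ≤ 2 * (x ^ (1 - k) * Y ^ (1 - k)) := by
                gcongr
                exact two_rpow_le hα1
        have e2 : (1 + x) ^ (1 / 4 : ℝ) ≤ 2 :=
          (Real.rpow_le_rpow (by positivity) (by linarith : 1 + x ≤ 2)
            (by norm_num)).trans (two_rpow_le (by norm_num))
        have e3 : 0 ≤ (1 + x) ^ (1 / 4 : ℝ) := Real.rpow_nonneg (by positivity) _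
        calc (1 + x * Y) ^ (1 - k) * (1 + x) ^ (1 / 4 : ℝ)
            ≤ (2 * (x ^ (1 - k) * Y ^ (1 - k))) * 2 := mul_le_mul e1 e2 e3 (by positivity)
          _ = 4 * (x ^ (1 - k) * Y ^ (1 - k)) := by ring
      have hmem : x ∈ Ioi (1 / Y) := hA
      have h2 : hh Y (1 - k) τ / (L * ((1 / L) ^ 2 + τ ^ 2)) ≤
          4 * Y ^ (1 - k) / L * x ^ (-1 - k) := by
        have h3 : x ^ (-1 - k) = x ^ (1 - k) / x ^ 2 := by
          rw [show (-1 - k : ℝ) = (1 - k) - (2 : ℕ) by push_cast; ring,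
            Real.rpow_sub_natCast hx1.ne']
        rw [h3]
        calc hh Y (1 - k) τ / (L * ((1 / L) ^ 2 + τ ^ 2))
            ≤ 4 * (x ^ (1 - k) * Y ^ (1 - k)) / (L * x ^ 2) := by
              apply div_le_div₀ (by positivity) h1 (by positivity) hden2
          _ = 4 * Y ^ (1 - k) / L * (x ^ (1 - k) / x ^ 2) := by
              field_simp
      have h4 : (Ioi (1 / Y)).indicator (fun y : ℝ => y ^ (-1 - k)) x = x ^ (-1 - k) :=
        indicator_of_mem hmem _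
      rw [h4] at hg2 ⊢
      linarith
    · have hmin : min x 1 = 1 := min_eq_right hB.le
      have h1 : hh Y (1 - k) τ ≤ 4 * Y * x ^ (1 / 4 : ℝ) := by
        unfold hh
        rw [← hx, hmin, one_mul]
        have e1 : (1 + Y) ^ (1 - k) ≤ 2 * Y := by
          calc (1 + Y) ^ (1 - k) ≤ (2 * Y) ^ (1 - k) :=
                Real.rpow_le_rpow (by positivity) (by linarith) hα0
            _ ≤ (2 * Y) ^ (1 : ℝ) :=
                Real.rpow_le_rpow_of_exponent_le (by linarith) hα1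
            _ = 2 * Y := Real.rpow_one _
        have e2 : (1 + x) ^ (1 / 4 : ℝ) ≤ 2 * x ^ (1 / 4 : ℝ) := by
          calc (1 + x) ^ (1 / 4 : ℝ) ≤ (2 * x) ^ (1 / 4 : ℝ) :=
                Real.rpow_le_rpow (by positivity) (by linarith) (by norm_num)
            _ = 2 ^ (1 / 4 : ℝ) * x ^ (1 / 4 : ℝ) := Real.mul_rpow (by norm_num) hx0
            _ ≤ 2 * x ^ (1 / 4 : ℝ) := by
                gcongr
                exact two_rpow_le (by norm_num)
        have e3 : 0 ≤ (1 + x) ^ (1 / 4 : ℝ) := Real.rpow_nonneg (by positivity) _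
        calc (1 + Y) ^ (1 - k) * (1 + x) ^ (1 / 4 : ℝ)
            ≤ (2 * Y) * (2 * x ^ (1 / 4 : ℝ)) := mul_le_mul e1 e2 e3 (by positivity)
          _ = 4 * Y * x ^ (1 / 4 : ℝ) := by ring
      have hmem : x ∈ Ioi (1 : ℝ) := hB
      have h2 : hh Y (1 - k) τ / (L * ((1 / L) ^ 2 + τ ^ 2)) ≤ 4 * x ^ (-(7 / 4) : ℝ) := by
        have h3 : x ^ (-(7 / 4) : ℝ) = x ^ (1 / 4 : ℝ) / x ^ 2 := by
          rw [show (-(7 / 4) : ℝ) = (1 / 4 : ℝ) - (2 : ℕ) by push_cast; norm_num,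
            Real.rpow_sub_natCast hx1.ne']
        rw [h3]
        have hxq : 0 ≤ x ^ (1 / 4 : ℝ) := Real.rpow_nonneg hx0 _
        calc hh Y (1 - k) τ / (L * ((1 / L) ^ 2 + τ ^ 2))
            ≤ 4 * Y * x ^ (1 / 4 : ℝ) / (L * x ^ 2) := by
              apply div_le_div₀ (by positivity) h1 (by positivity) hden2
          _ ≤ 4 * L * x ^ (1 / 4 : ℝ) / (L * x ^ 2) := by gcongr
          _ = 4 * (x ^ (1 / 4 : ℝ) / x ^ 2) := by
              field_simp
      have h4 : (Ioi (1 : ℝ)).indicator (fun y : ℝ => y ^ (-(7 / 4) : ℝ)) x =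
          x ^ (-(7 / 4) : ℝ) := indicator_of_mem hmem _
      rw [h4] at hg3 ⊢
      linarith

/-- HNT. -/
theorem hnt : HntStatement := by
  refine ⟨40, by norm_num, fun L Y k hL hY hYL hk hk1 => ?_⟩
  have hL0 : 0 < L := by linarith
  have hY0 : 0 < Y := by linarith
  obtain ⟨i1, v1⟩ := cauchy_int hL0
  obtain ⟨i2, v2⟩ := tail_int (a := 1 / Y) (b := -1 - k) (by positivity) (by linarith)
  obtain ⟨i3, v3⟩ := tail_int (a := 1) (b := -(7 / 4)) one_pos (by norm_num)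
  have j1 := i1.const_mul 4
  have j2 := i2.const_mul (4 * Y ^ (1 - k) / L)
  have j3 := i3.const_mul 4
  have jj := (j1.add j2).add j3
  have hnn : ∀ τ : ℝ, 0 ≤ hh Y (1 - k) τ / (L * ((1 / L) ^ 2 + τ ^ 2)) := by
    intro τ
    unfold hh
    have : 0 ≤ min |τ| 1 := le_min (abs_nonneg _) zero_le_one
    positivity
  have hcont : Continuous (fun τ : ℝ => hh Y (1 - k) τ / (L * ((1 / L) ^ 2 + τ ^ 2))) := by
    unfold hh
    refine Continuous.div ?_ (by fun_prop) (fun τ => by positivity)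
    refine Continuous.mul ?_ ?_
    · refine Continuous.rpow_const (by fun_prop) (fun τ => Or.inl ?_)
      have : 0 ≤ min |τ| 1 := le_min (abs_nonneg _) zero_le_one
      positivity
    · refine Continuous.rpow_const (by fun_prop) (fun τ => Or.inl ?_)
      positivity
  have hint : Integrable (fun τ : ℝ => hh Y (1 - k) τ / (L * ((1 / L) ^ 2 + τ ^ 2))) := by
    refine jj.mono' hcont.aestronglyMeasurable (Filter.Eventually.of_forall (fun τ => ?_))
    rw [Real.norm_of_nonneg (hnn τ)]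
    exact pw hL hY hYL hk hk1
  refine ⟨hint, ?_⟩
  have hle : ∫ τ : ℝ, hh Y (1 - k) τ / (L * ((1 / L) ^ 2 + τ ^ 2)) ≤
      ∫ τ : ℝ, (4 * (L * (1 + (L * τ) ^ 2)⁻¹) +
      4 * Y ^ (1 - k) / L * (Ioi (1 / Y)).indicator (fun y : ℝ => y ^ (-1 - k)) |τ| +
      4 * (Ioi (1 : ℝ)).indicator (fun y : ℝ => y ^ (-(7 / 4) : ℝ)) |τ|) :=
    integral_mono hint jj (fun τ => pw hL hY hYL hk hk1)
  have hval : ∫ τ : ℝ, (4 * (L * (1 + (L * τ) ^ 2)⁻¹) +
      4 * Y ^ (1 - k) / L * (Ioi (1 / Y)).indicator (fun y : ℝ => y ^ (-1 - k)) |τ| +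
      4 * (Ioi (1 : ℝ)).indicator (fun y : ℝ => y ^ (-(7 / 4) : ℝ)) |τ|) =
      4 * Real.pi + 4 * Y ^ (1 - k) / L * (2 * (-(1 / Y) ^ (-1 - k + 1) / (-1 - k + 1))) +
      4 * (2 * (-(1 : ℝ) ^ (-(7 / 4) + 1 : ℝ) / (-(7 / 4) + 1))) := by
    have h12 : Integrable (fun τ : ℝ => 4 * (L * (1 + (L * τ) ^ 2)⁻¹) +
        4 * Y ^ (1 - k) / L * (Ioi (1 / Y)).indicator (fun y : ℝ => y ^ (-1 - k)) |τ|) :=
      j1.add j2
    have w1 : ∫ τ : ℝ, 4 * (L * (1 + (L * τ) ^ 2)⁻¹) = 4 * Real.pi := by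
      rw [integral_const_mul, v1]
    have w2 : ∫ τ : ℝ, 4 * Y ^ (1 - k) / L *
        (Ioi (1 / Y)).indicator (fun y : ℝ => y ^ (-1 - k)) |τ| =
        4 * Y ^ (1 - k) / L * (2 * (-(1 / Y) ^ (-1 - k + 1) / (-1 - k + 1))) := by
      rw [integral_const_mul, v2]
    have w3 : ∫ τ : ℝ, 4 * (Ioi (1 : ℝ)).indicator (fun y : ℝ => y ^ (-(7 / 4) : ℝ)) |τ| =
        4 * (2 * (-(1 : ℝ) ^ (-(7 / 4) + 1 : ℝ) / (-(7 / 4) + 1))) := by
      rw [integral_const_mul, v3]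
    rw [integral_add h12 j3, integral_add j1 j2, w1, w2, w3]
  rw [hval] at hle
  refine hle.trans ?_
  have e1 : (1 / Y) ^ (-1 - k + 1) = Y ^ k := by
    rw [show (-1 - k + 1 : ℝ) = -k by ring, one_div, Real.inv_rpow hY0.le, Real.rpow_neg hY0.le,
      inv_inv]
  have e2 : Y ^ (1 - k) * Y ^ k = Y := by
    rw [← Real.rpow_add hY0, show (1 - k + k : ℝ) = 1 by ring, Real.rpow_one]
  have e3 : 4 * Y ^ (1 - k) / L * (2 * (-(1 / Y) ^ (-1 - k + 1) / (-1 - k + 1))) =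
      8 * (Y / L) / k := by
    rw [e1, show (-1 - k + 1 : ℝ) = -k by ring]
    have : 4 * Y ^ (1 - k) / L * (2 * (-Y ^ k / -k)) = 8 * ((Y ^ (1 - k) * Y ^ k) / L) / k := by
      field_simp
      ring
    rw [this, e2]
  have e4 : Y / L ≤ 1 := by
    rw [div_le_one hL0]
    exact hYL
  rw [e3, Real.one_rpow]
  have e5 : 8 * (Y / L) / k ≤ 8 / k := by
    gcongr
    linarith
  have e6 : (1 : ℝ) ≤ 1 / k := by
    rw [le_div_iff₀ hk]
    linarith
  have e7 : Real.pi ≤ 4 := by linarith [Real.pi_lt_d2]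
  have e8 : (40 : ℝ) / k = 8 / k + 32 * (1 / k) := by ring
  have e9 : 4 * (2 * (-(1 : ℝ) / (-(7 / 4) + 1))) = 32 / 3 := by norm_num
  rw [e8, e9]
  linarith

end Pool.Agent.Lib.MP_6bc78b_nt.MS.QZ.H32
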